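import Mathlib

namespace Pool.Agent.Results.MP_93593e_co.SixN

open Finset

section defs
variable {V : Type} [Fintype V] [DecidableEq V]

/-- the digraph with arc set `E` is strongly connected -/
def Strong (E : Finset (V × V)) : Prop :=
  ∀ u v, Relation.ReflTransGen (fun a b => (a, b) ∈ E) u v

/-- the underlying simple graph -/
def und (E : Finset (V × V)) : SimpleGraph V := SimpleGraph.fromRel fun a b => (a, b) ∈ E

/-- connected, and connected after deleting any single vertex -/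
def Bicon (G : SimpleGraph V) : Prop := G.Connected ∧ ∀ z, (G.induce {z}ᶜ).Connected

/-- strongly biconnected -/
def SB (E : Finset (V × V)) : Prop := Strong E ∧ Bicon (und E)

/-- 2-edge-strongly biconnected -/
def ESB (E : Finset (V × V)) : Prop := SB E ∧ 3 ≤ Fintype.card V ∧ ∀ e ∈ E, SB (E.erase e)

/-- minimal 2-edge-strongly biconnected -/
def MinESB (E : Finset (V × V)) : Prop := ESB E ∧ ∀ e ∈ E, ¬ ESB (E.erase e)

theorem strong_iff (E : Finset (V × V)) :
    Strong E ↔ ∀ X : Finset V, X.Nonempty → X ≠ univ → ∃ e ∈ E, e.1 ∉ X ∧ e.2 ∈ X := by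
  classical
  constructor
  · intro h X ⟨v, hv⟩ hX
    obtain ⟨u, hu⟩ : ∃ u, u ∉ X := by
      by_contra hc
      push Not at hc
      exact hX (eq_univ_of_forall hc)
    have := h u v
    induction this with
    | refl => exact absurd hv hu
    | @tail b c _ hbc ih =>
      by_cases hb : b ∈ X
      · exact ih hb
      · exact ⟨(b, c), hbc, hb, hv⟩
  · intro h u v
    by_contra hc
    obtain ⟨e, he, h1, h2⟩ := h (univ.filter fun a => Relation.ReflTransGen (fun a b => (a, b) ∈ E) a v)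
      ⟨v, by simp [Relation.ReflTransGen.refl]⟩ (fun h' => by
        have : u ∈ univ.filter fun a => Relation.ReflTransGen (fun a b => (a, b) ∈ E) a v := by
          rw [h']; simp
        simp at this; exact hc this)
    simp only [mem_filter, mem_univ, true_and] at h1 h2
    exact h1 (Relation.ReflTransGen.head he h2)

theorem conn_of_strong {E : Finset (V × V)} (h : Strong E) (hn : 3 ≤ Fintype.card V) :
    (und E).Connected := by
  have : Nonempty V := Fintype.card_pos_iff.mp (by omega)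
  refine ⟨fun u v => ?_⟩
  induction h u v with
  | refl => rfl
  | @tail b c _ hbc ih =>
    by_cases hb : b = c
    · exact hb ▸ ih
    · exact ih.trans (SimpleGraph.Adj.reachable (by simp [und, hb, hbc]))

/-- `e` runs between `X` and `W` -/
def Q (X W : Finset V) (e : V × V) : Prop := (e.1 ∈ X ∧ e.2 ∈ W) ∨ (e.1 ∈ W ∧ e.2 ∈ X)

instance (X W : Finset V) : DecidablePred (Q X W) := fun e => by unfold Q; infer_instance

theorem del_iff (E : Finset (V × V)) (hn : 3 ≤ Fintype.card V) (z : V) :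
    ((und E).induce {z}ᶜ).Connected ↔ ∀ X W : Finset V, X.Nonempty → W.Nonempty → Disjoint X W →
      X ∪ W = univ.erase z → ∃ e ∈ E, Q X W e := by
  classical
  constructor
  · intro h X W ⟨x, hx⟩ ⟨w, hw⟩ hd hu
    have hm : ∀ a, a ∈ X ∨ a ∈ W ↔ a ≠ z := fun a => by
      rw [← mem_union, hu]; simp
    have key : ∀ a b : ({z}ᶜ : Set V), ((und E).induce {z}ᶜ).Walk a b → a.1 ∈ X → b.1 ∈ W →
        ∃ e ∈ E, Q X W e := by
      intro a b p
      induction p with
      | nil => intro h1 h2; exact absurd h2 (disjoint_left.mp hd h1)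
      | @cons a c b hac _ ih =>
        intro h1 h2
        rcases (hm c.1).mpr c.2 with h3 | h3
        · exact ih h3 h2
        · simp only [SimpleGraph.comap_adj, und, SimpleGraph.fromRel_adj] at hac
          rcases hac.2 with h4 | h4
          · exact ⟨_, h4, Or.inl ⟨h1, h3⟩⟩
          · exact ⟨_, h4, Or.inr ⟨h3, h1⟩⟩
    obtain ⟨p⟩ := h.preconnected ⟨x, (hm x).mp (Or.inl hx)⟩ ⟨w, (hm w).mp (Or.inr hw)⟩
    exact key _ _ p hx hw
  · intro h
    obtain ⟨y, hy⟩ : ∃ y, y ≠ z := Fintype.exists_ne_of_one_lt_card (by omega) z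
    have : Nonempty ({z}ᶜ : Set V) := ⟨⟨y, hy⟩⟩
    refine ⟨fun u v => ?_⟩
    by_contra hc
    set X := univ.filter fun a => ∃ h : a ≠ z, ((und E).induce {z}ᶜ).Reachable u ⟨a, h⟩ with hX
    obtain ⟨e, he, hq⟩ := h X (univ.erase z \ X) ⟨u.1, mem_filter.mpr ⟨mem_univ _, u.2, .refl _⟩⟩
      ⟨v.1, by
        simp only [hX, mem_sdiff, mem_erase, mem_univ, and_true, mem_filter, true_and, not_exists]
        exact ⟨v.2, fun _ => hc⟩⟩ disjoint_sdiff (union_sdiff_of_subset (by
          intro a ha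
          simp only [hX, mem_filter, mem_univ, true_and] at ha
          simp [ha.1]))
    have step : ∀ a b, (und E).Adj a b → a ∈ X → b ∈ univ.erase z \ X → False := by
      intro a b hab ha hb
      simp only [hX, mem_sdiff, mem_erase, mem_univ, and_true, mem_filter, true_and,
        not_exists] at ha hb
      obtain ⟨ha1, ha2⟩ := ha
      exact hb.2 hb.1 (ha2.trans (SimpleGraph.Adj.reachable (by simpa using hab)))
    have hne : ∀ a b, a ∈ X → b ∈ univ.erase z \ X → a ≠ b := fun a b ha hb hab =>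
      (mem_sdiff.mp hb).2 (hab ▸ ha)
    rcases hq with ⟨h1, h2⟩ | ⟨h1, h2⟩
    · exact step _ _ (by simp [und, hne _ _ h1 h2, he]) h1 h2
    · exact step _ _ (by simp [und, hne _ _ h2 h1, he]) h2 h1

theorem two {A : Type} [DecidableEq A] (E : Finset A) (P : A → Prop) [DecidablePred P]
    (h0 : ∃ e ∈ E, P e) (h1 : ∀ e ∈ E, ∃ f ∈ E.erase e, P f) : 2 ≤ (E.filter P).card := by
  obtain ⟨e, he, hp⟩ := h0
  obtain ⟨f, hf, hq⟩ := h1 e he
  exact one_lt_card.mpr ⟨e, by simp [he, hp], f, by simp [(mem_erase.mp hf).2, hq],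
    (mem_erase.mp hf).1.symm⟩

theorem crit {A : Type} [DecidableEq A] (E : Finset A) (P : A → Prop) [DecidablePred P] (e f : A)
    (h2 : 2 ≤ (E.filter P).card) (h : ¬ ∃ g ∈ (E.erase e).erase f, P g) :
    (E.filter P).card ≤ 2 ∧ P e := by
  have hs : E.filter P ⊆ {e, f} := by
    intro g hg
    rw [mem_filter] at hg
    by_contra hc
    simp only [mem_insert, mem_singleton, not_or] at hc
    exact h ⟨g, by simp [hc, hg.1], hg.2⟩
  refine ⟨(card_le_card hs).trans card_le_two, ?_⟩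
  by_contra hp
  have : E.filter P ⊆ {f} := by
    intro g hg
    rcases mem_insert.mp (hs hg) with rfl | h'
    · exact absurd (mem_filter.mp hg).2 hp
    · exact h'
  have := card_le_card this
  simp at this
  omega

theorem three {A : Type} [DecidableEq A] {S : Finset A} {a b c : A} (ha : a ∈ S) (hb : b ∈ S)
    (hc : c ∈ S) (hab : a ≠ b) (hac : a ≠ c) (hbc : b ≠ c) : 3 ≤ S.card :=
  two_lt_card_iff.mpr ⟨a, b, c, ha, hb, hc, hab, hac, hbc⟩

theorem submod {A : Type} (E : Finset A) (P1 P2 P3 P4 : A → Prop) [DecidablePred P1]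
    [DecidablePred P2] [DecidablePred P3] [DecidablePred P4]
    (h : ∀ e, (P1 e → P3 e ∨ P4 e) ∧ (P2 e → P3 e ∨ P4 e) ∧ (P1 e → P2 e → P3 e ∧ P4 e)) :
    (E.filter P1).card + (E.filter P2).card ≤ (E.filter P3).card + (E.filter P4).card := by
  simp only [card_filter, ← sum_add_distrib]
  refine sum_le_sum fun e _ => ?_
  have := h e
  split_ifs <;> simp_all

open Classical in
theorem cnt {A : Type} [DecidableEq A] (hd tl : A → V) (E : Finset A) (s : V)
    (h2 : ∀ X : Finset V, X.Nonempty → s ∉ X → 2 ≤ (E.filter fun e => tl e ∉ X ∧ hd e ∈ X).card) :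
    (E.filter fun e => ∃ X : Finset V, s ∉ X ∧
      (E.filter fun e => tl e ∉ X ∧ hd e ∈ X).card ≤ 2 ∧ tl e ∉ X ∧ hd e ∈ X).card ≤
      2 * (Fintype.card V - 1) := by
  have unc : ∀ (X Y : Finset V) (v : V), v ∈ X → v ∈ Y → s ∉ X → s ∉ Y →
      (E.filter fun e => tl e ∉ X ∧ hd e ∈ X).card ≤ 2 →
      (E.filter fun e => tl e ∉ Y ∧ hd e ∈ Y).card ≤ 2 →
      (E.filter fun e => tl e ∉ X ∩ Y ∧ hd e ∈ X ∩ Y).card ≤ 2 := by
    intro X Y v hx hy sx sy h1 h3
    have a1 := h2 (X ∪ Y) ⟨v, by simp [hx]⟩ (by simp [sx, sy])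
    have a2 := submod E (fun e => tl e ∉ X ∩ Y ∧ hd e ∈ X ∩ Y) (fun e => tl e ∉ X ∪ Y ∧ hd e ∈ X ∪ Y)
      (fun e => tl e ∉ X ∧ hd e ∈ X) (fun e => tl e ∉ Y ∧ hd e ∈ Y) (fun e => by
        simp only [mem_inter, mem_union]; tauto)
    omega
  rw [← card_univ, ← card_erase_of_mem (mem_univ s)]
  refine card_le_mul_card_image_of_maps_to (f := hd) (fun e he => ?_) 2 fun v _ => ?_
  · obtain ⟨X, hs, -, -, h⟩ := (mem_filter.mp he).2
    simp only [mem_erase, mem_univ, and_true]
    exact fun h' => hs (h' ▸ h)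
  · by_contra hc
    obtain ⟨a, b, c, ha, hb, hc, hab, hac, hbc⟩ := two_lt_card_iff.mp (not_le.mp hc)
    simp only [mem_filter] at ha hb hc
    obtain ⟨⟨ea, X, sx, tx, x1, x2⟩, va⟩ := ha
    obtain ⟨⟨eb, Y, sy, ty, y1, y2⟩, vb⟩ := hb
    obtain ⟨⟨ec, Z, sz, tz, z1, z2⟩, vc⟩ := hc
    rw [va] at x2; rw [vb] at y2; rw [vc] at z2
    have t1 := unc X Y v x2 y2 sx sy tx ty
    have t2 := unc (X ∩ Y) Z v (by simp [x2, y2]) z2 (by simp [sx]) sz t1 tz
    have := three (S := E.filter fun e => tl e ∉ X ∩ Y ∩ Z ∧ hd e ∈ X ∩ Y ∩ Z)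
      (a := a) (b := b) (c := c) (by simp [*]) (by simp [*]) (by simp [*]) hab hac hbc
    omega

theorem rin2 {E : Finset (V × V)} (h : ESB E) (X : Finset V) (h1 : X.Nonempty) (h2 : X ≠ univ) :
    2 ≤ (E.filter fun e => e.1 ∉ X ∧ e.2 ∈ X).card :=
  two E _ ((strong_iff E).mp h.1.1 X h1 h2) fun e he => (strong_iff _).mp (h.2.2 e he).1 X h1 h2

theorem dd2 {E : Finset (V × V)} (h : ESB E) (z : V) (X W : Finset V) (h1 : X.Nonempty)
    (h2 : W.Nonempty) (hd : Disjoint X W) (hu : X ∪ W = univ.erase z) :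
    2 ≤ (E.filter (Q X W)).card :=
  two E _ ((del_iff E h.2.1 z).mp (h.1.2.2 z) X W h1 h2 hd hu) fun e he =>
    (del_iff _ h.2.1 z).mp ((h.2.2 e he).2.2 z) X W h1 h2 hd hu

theorem dd_full (E : Finset (V × V)) (X W : Finset V) (hd : Disjoint X W) (hu : X ∪ W = univ) :
    (E.filter (Q X W)).card = (E.filter fun e => e.1 ∉ X ∧ e.2 ∈ X).card +
      (E.filter fun e => e.1 ∉ W ∧ e.2 ∈ W).card := by
  have hm : ∀ a, a ∈ W ↔ a ∉ X := fun a =>
    ⟨fun h h' => disjoint_left.mp hd h' h, fun h => by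
      have : a ∈ X ∪ W := by rw [hu]; simp
      simpa [h] using this⟩
  simp only [card_filter, ← sum_add_distrib]
  refine sum_congr rfl fun e _ => ?_
  simp only [Q, hm]
  by_cases h1 : e.1 ∈ X <;> by_cases h2 : e.2 ∈ X <;> simp [h1, h2]

theorem low {E : Finset (V × V)} (h : ESB E) (X W : Finset V) (h1 : X.Nonempty)
    (h2 : W.Nonempty) (hd : Disjoint X W) :
    4 + 2 * (X.card + W.card) ≤ (E.filter (Q X W)).card + 2 * Fintype.card V := by
  have hc := card_union_of_disjoint hd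
  have hle : (X ∪ W).card ≤ Fintype.card V := card_le_univ _
  by_cases c0 : (X ∪ W).card = Fintype.card V
  · have hu : X ∪ W = univ := eq_univ_of_card _ c0
    have := dd_full E X W hd hu
    obtain ⟨x, hx⟩ := h1
    obtain ⟨w, hw⟩ := h2
    have a1 := rin2 h X ⟨x, hx⟩ fun h' => disjoint_left.mp hd (h' ▸ mem_univ w) hw
    have a2 := rin2 h W ⟨w, hw⟩ fun h' => disjoint_left.mp hd hx (h' ▸ mem_univ x)
    omega
  by_cases c1 : (X ∪ W).card + 1 = Fintype.card V
  · obtain ⟨z, hz⟩ : ∃ z, z ∉ X ∪ W := by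
      by_contra hc'
      push Not at hc'
      exact c0 (by rw [eq_univ_of_forall hc']; rfl)
    have hu : X ∪ W = univ.erase z := eq_of_subset_of_card_le
      (fun a ha => by simp only [mem_erase, mem_univ, and_true]; exact fun h' => hz (h' ▸ ha))
      (by rw [card_erase_of_mem (mem_univ z), card_univ]; omega)
    have := dd2 h z X W h1 h2 hd hu
    omega
  omega

/-- arcs in a directed cut of size two -/
def TA (E : Finset (V × V)) (e : V × V) : Prop :=
  ∃ X : Finset V, X ≠ univ ∧ (E.filter fun e => e.1 ∉ X ∧ e.2 ∈ X).card ≤ 2 ∧ e.1 ∉ X ∧ e.2 ∈ X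

/-- tight bisets -/
def Ti (E : Finset (V × V)) (X W : Finset V) : Prop :=
  Disjoint X W ∧ (E.filter (Q X W)).card + 2 * Fintype.card V ≤ 4 + 2 * (X.card + W.card)

theorem unc2 {E : Finset (V × V)} (h : ESB E) {X W Y U : Finset V} {v s : V} (hx : v ∈ X)
    (hy : v ∈ Y) (hw : s ∈ W) (hu : s ∈ U) (t1 : Ti E X W) (t2 : Ti E Y U) :
    Ti E (X ∩ Y) (W ∪ U) := by
  obtain ⟨d1, t1⟩ := t1
  obtain ⟨d2, t2⟩ := t2
  have e1 := disjoint_left.mp d1
  have e2 := disjoint_left.mp d2
  refine ⟨disjoint_left.mpr fun a ha hb => ?_, ?_⟩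
  · simp only [mem_inter, mem_union] at ha hb
    exact hb.elim (e1 ha.1) (e2 ha.2)
  have a1 := low h (X ∪ Y) (W ∩ U) ⟨v, by simp [hx]⟩ ⟨s, by simp [hw, hu]⟩
    (disjoint_left.mpr fun a ha hb => by
      simp only [mem_inter, mem_union] at ha hb
      exact ha.elim (fun h => e1 h hb.1) fun h => e2 h hb.2)
  have a2 := submod E (Q (X ∩ Y) (W ∪ U)) (Q (X ∪ Y) (W ∩ U)) (Q X W) (Q Y U) (fun e => by
    have := @e1 e.1
    have := @e1 e.2
    have := @e2 e.1
    have := @e2 e.2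
    simp only [Q, mem_inter, mem_union]; tauto)
  have := card_union_add_card_inter X Y
  have := card_union_add_card_inter W U
  omega

open Classical in
theorem cntB {E : Finset (V × V)} (h : ESB E) (s : V) :
    (E.filter fun e => ¬ TA E e ∧ ∃ X W : Finset V, Ti E X W ∧ s ∈ W ∧ Q X W e).card ≤
      2 * (Fintype.card V - 1) := by
  set B : V → Finset (V × V) := fun v => E.filter fun e => ¬ TA E e ∧ ∃ X W : Finset V,
    Ti E X W ∧ s ∈ W ∧ v ∈ X ∧ ((e.1 = v ∧ e.2 ∈ W) ∨ (e.1 ∈ W ∧ e.2 = v)) with hB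
  have h1 : (E.filter fun e => ¬ TA E e ∧ ∃ X W : Finset V, Ti E X W ∧ s ∈ W ∧ Q X W e) ⊆
      (univ.erase s).biUnion B := by
    intro e he
    simp only [mem_filter] at he
    obtain ⟨he, hn, X, W, ht, hs, hq⟩ := he
    have hne : ∀ a ∈ X, a ≠ s := fun a ha h' => disjoint_left.mp ht.1 ha (h' ▸ hs)
    simp only [mem_biUnion, mem_erase, mem_univ, and_true, hB, mem_filter]
    rcases hq with ⟨q1, q2⟩ | ⟨q1, q2⟩
    · exact ⟨e.1, hne _ q1, he, hn, X, W, ht, hs, q1, Or.inl ⟨rfl, q2⟩⟩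
    · exact ⟨e.2, hne _ q2, he, hn, X, W, ht, hs, q2, Or.inr ⟨q1, rfl⟩⟩
  have h2 : ∀ v ∈ univ.erase s, (B v).card ≤ 2 := by
    intro v _
    by_contra hc
    obtain ⟨a, b, c, ha, hb, hc, hab, hac, hbc⟩ := two_lt_card_iff.mp (not_le.mp hc)
    simp only [hB, mem_filter] at ha hb hc
    obtain ⟨ea, na, X, W, tx, sx, vx, qa⟩ := ha
    obtain ⟨eb, -, Y, U, ty, sy, vy, qb⟩ := hb
    obtain ⟨ec, -, Z, T, tz, sz, vz, qc⟩ := hc
    have t2 := unc2 h (v := v) (s := s) (by simp [vx, vy]) vz (by simp [sx]) sz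
      (unc2 h vx vy sx sy tx ty) tz
    have hv : v ∈ X ∩ Y ∩ Z := by simp [*]
    have hs : s ∈ W ∪ U ∪ T := by simp [*]
    have qq : ∀ (e : V × V) (S : Finset V), S ⊆ W ∪ U ∪ T →
        ((e.1 = v ∧ e.2 ∈ S) ∨ (e.1 ∈ S ∧ e.2 = v)) → Q (X ∩ Y ∩ Z) (W ∪ U ∪ T) e := by
      rintro e S hS (⟨q1, q2⟩ | ⟨q1, q2⟩)
      · exact Or.inl ⟨q1 ▸ hv, hS q2⟩
      · exact Or.inr ⟨hS q1, q2 ▸ hv⟩
    have qa' := qq a W (fun x hx => by simp [hx]) qa
    have qb' := qq b U (fun x hx => by simp [hx]) qb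
    have qc' := qq c T (fun x hx => by simp [hx]) qc
    generalize X ∩ Y ∩ Z = X' at *
    generalize W ∪ U ∪ T = W' at *
    have h3 := three (S := E.filter (Q X' W')) (a := a) (b := b) (c := c)
      (by simp [*]) (by simp [*]) (by simp [*]) hab hac hbc
    obtain ⟨hd, ht⟩ := t2
    have hc := card_union_of_disjoint hd
    have hle : (X' ∪ W').card ≤ Fintype.card V := card_le_univ _
    have hu : X' ∪ W' = univ := eq_univ_of_card _ (by omega)
    have := dd_full E X' W' hd hu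
    have n1 : X' ≠ univ := fun h' => disjoint_left.mp hd (h' ▸ mem_univ s) hs
    have n2 : W' ≠ univ := fun h' => disjoint_left.mp hd hv (h' ▸ mem_univ v)
    have a1 := rin2 h X' ⟨v, hv⟩ n1
    have a2 := rin2 h W' ⟨s, hs⟩ n2
    rcases qa' with ⟨q1, q2⟩ | ⟨q1, q2⟩
    · exact na ⟨W', n2, by omega, disjoint_left.mp hd q1, q2⟩
    · exact na ⟨X', n1, by omega, disjoint_right.mp hd q1, q2⟩
  have := (card_le_card h1).trans (card_biUnion_le_card_mul _ _ 2 h2)
  rw [card_erase_of_mem (mem_univ s), card_univ] at this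
  omega

theorem classify {E : Finset (V × V)} (h : MinESB E) (e : V × V) (he : e ∈ E) (hn : ¬ TA E e) :
    ∃ z, ∃ X W : Finset V, Ti E X W ∧ X ∪ W = univ.erase z ∧ Q X W e := by
  obtain ⟨h, hm⟩ := h
  have h1 := hm e he
  simp only [ESB, h.2.2 e he, h.2.1, true_and, not_forall] at h1
  obtain ⟨f, -, hf⟩ := h1
  by_cases hs : Strong ((E.erase e).erase f)
  · simp only [SB, Bicon, hs, conn_of_strong hs h.2.1, true_and, not_forall,
      del_iff _ h.2.1] at hf
    obtain ⟨z, X, W, x1, w1, hd, hu, hq⟩ := hf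
    obtain ⟨c1, c2⟩ := crit E _ e f (dd2 h z X W x1 w1 hd hu) hq
    refine ⟨z, X, W, ⟨hd, ?_⟩, hu, c2⟩
    have := card_union_of_disjoint hd
    rw [hu, card_erase_of_mem (mem_univ z), card_univ] at this
    have := h.2.1
    omega
  · simp only [strong_iff, not_forall] at hs
    obtain ⟨X, x1, x2, hq⟩ := hs
    obtain ⟨c1, c2⟩ := crit E _ e f (rin2 h X x1 x2) hq
    exact absurd ⟨X, x2, c1, c2⟩ hn

open Classical in
theorem cntA {E : Finset (V × V)} (h : ESB E) :
    (E.filter (TA E)).card ≤ 4 * (Fintype.card V - 1) := by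
  obtain ⟨s⟩ : Nonempty V := Fintype.card_pos_iff.mp (by have := h.2.1; omega)
  have a1 := cnt Prod.snd Prod.fst E s fun X h1 h2 => rin2 h X h1 fun h' => h2 (h' ▸ mem_univ s)
  have a2 := cnt Prod.fst Prod.snd E s fun X h1 h2 => by
    have := rin2 h Xᶜ ⟨s, by simp [h2]⟩ (by
      obtain ⟨x, hx⟩ := h1
      intro h'
      have : x ∈ Xᶜ := h' ▸ mem_univ x
      simp [hx] at this)
    simpa [and_comm] using this
  refine le_trans (le_trans (card_le_card ?_) (card_union_le _ _)) ((add_le_add a1 a2).trans (by omega))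
  intro e he
  simp only [mem_filter, mem_union] at he ⊢
  obtain ⟨he, X, -, h2, h3, h4⟩ := he
  by_cases hs : s ∈ X
  · exact Or.inr ⟨he, Xᶜ, by simp [hs], by simpa [and_comm] using h2, by simp [h4], by simp [h3]⟩
  · exact Or.inl ⟨he, X, hs, h2, h3, h4⟩

open Classical in
theorem cntN {E : Finset (V × V)} (h : MinESB E) :
    (E.filter fun e => ¬ TA E e).card ≤ 2 * Fintype.card V := by
  have : Nonempty V := Fintype.card_pos_iff.mp (by have := h.1.2.1; omega)
  choose! z hz using classify h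
  set B := E.filter fun e => ¬ TA E e with hB
  have h1 : ∀ s, B.card ≤ 2 * (Fintype.card V - 1) + (B.filter fun e => z e = s).card := by
    intro s
    refine le_trans (le_trans (card_le_card ?_) (card_union_le _ _))
      (add_le_add (cntB h.1 s) le_rfl)
    intro e he
    by_cases hs : z e = s
    · exact mem_union_right _ (mem_filter.mpr ⟨he, hs⟩)
    · refine mem_union_left _ ?_
      obtain ⟨he, hn⟩ := mem_filter.mp he
      obtain ⟨X, W, ht, hu, hq⟩ := hz e he hn
      have : s ∈ X ∪ W := by rw [hu]; simp [Ne.symm hs]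
      refine mem_filter.mpr ⟨he, hn, ?_⟩
      rcases mem_union.mp this with h' | h'
      · refine ⟨W, X, ⟨ht.1.symm, ?_⟩, h', hq.symm⟩
        have : E.filter (Q W X) = E.filter (Q X W) := filter_congr fun e _ => or_comm
        rw [this, add_comm W.card]
        exact ht.2
      · exact ⟨X, W, ht, h', hq⟩
  have h2 := sum_le_sum fun s (_ : s ∈ (univ : Finset V)) => h1 s
  rw [sum_add_distrib, ← card_eq_sum_card_fiberwise (fun e _ => mem_univ (z e))] at h2
  simp only [sum_const, card_univ, smul_eq_mul] at h2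
  obtain ⟨m, hm⟩ : ∃ m, Fintype.card V = m + 1 := ⟨Fintype.card V - 1, by have := h.1.2.1; omega⟩
  have h3 := h.1.2.1
  rw [hm] at h2 h3 ⊢
  simp only [Nat.add_sub_cancel] at h2
  by_contra hc
  nlinarith

end defs

theorem result (V : Type) [Fintype V] [DecidableEq V] (E : Finset (V × V))
    (_hl : ∀ v, (v, v) ∉ E) (h : MinESB E) :
    E.card + 4 ≤ 6 * Fintype.card V ∧ E.card ≤ 7 * Fintype.card V := by
  classical
  have h1 := cntA h.1
  have h2 := cntN h
  have h3 := card_filter_add_card_filter_not (s := E) (TA E)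
  have := h.1.2.1
  omega

end Pool.Agent.Results.MP_93593e_co.SixN
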